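import Pool.Agent.Lib.MP_60cbcc_al.H3ZFWrap

namespace Pool.Agent.Results.MP_60cbcc_al.ConcreteFactors

open MeasureTheory Pool.Agent.Lib.MP_60cbcc_al.H3Z

/-- Stabiliser rigidity for irreducible lattices in products of at least two simple groups. -/
theorem result (ι : Type) [Finite ι] [Nontrivial ι] (G : ι → Type) [∀ i, Group (G i)]
    [∀ i, TopologicalSpace (G i)] [∀ i, IsTopologicalGroup (G i)] [∀ i, LocallyCompactSpace (G i)]
    [∀ i, SecondCountableTopology (G i)] [∀ i, T2Space (G i)] [∀ i, MeasurableSpace (G i)]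
    [∀ i, BorelSpace (G i)] (hG : ∀ i, IsConcrete (G i))
    (Γ : Subgroup (∀ i, G i)) (hΓ : IsLattice Γ)
    (hd : ∀ i, (Γ.map (MonoidHom.pi fun k : {k // k ≠ i} =>
      Pi.evalMonoidHom G k.1)).topologicalClosure.FiniteIndex)
    (hZ : Subgroup.center Γ = ⊥)
    (X : Type) [MeasurableSpace X] [StandardBorelSpace X] [MulAction Γ X]
    [MeasurableConstSMul Γ X] (μ : Measure X) [IsProbabilityMeasure μ] [ErgodicSMul Γ X μ] :
    (∃ F : Set X, F.Finite ∧ μ Fᶜ = 0) ∨ ∀ᵐ x ∂μ, MulAction.stabilizer Γ x = ⊥ :=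
  fm_main hG Γ hΓ hd hZ μ

end Pool.Agent.Results.MP_60cbcc_al.ConcreteFactors
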