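import Pool.Agent.Lib.MP_60cbcc_al.H3ZMainA

namespace Pool.Agent.Results.MP_60cbcc_al.DenseCommutators

open MeasureTheory MulAction Pool.Agent.Lib.MP_60cbcc_al.H3Z

/-- Lattices in products of two compactly generated groups: if the commutator subgroups of the
stabilisers project densely to both factors, then almost every orbit is finite. -/
theorem result (G₁ G₂ : Type)
    [Group G₁] [TopologicalSpace G₁] [IsTopologicalGroup G₁] [LocallyCompactSpace G₁]
    [SecondCountableTopology G₁] [T2Space G₁] [MeasurableSpace G₁] [BorelSpace G₁]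
    [Group G₂] [TopologicalSpace G₂] [IsTopologicalGroup G₂] [LocallyCompactSpace G₂]
    [SecondCountableTopology G₂] [T2Space G₂] [MeasurableSpace G₂] [BorelSpace G₂]
    (h₁ : ∃ S : Set G₁, IsCompact S ∧ Subgroup.closure S = ⊤)
    (h₂ : ∃ S : Set G₂, IsCompact S ∧ Subgroup.closure S = ⊤)
    (Γ : Subgroup (G₁ × G₂)) (hΓ : IsLattice Γ)
    (X : Type) [MeasurableSpace X] [StandardBorelSpace X] [MulAction Γ X]
    [MeasurableConstSMul Γ X] (μ : Measure X) [IsProbabilityMeasure μ]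
    [SMulInvariantMeasure Γ X μ]
    (hd : ∀ᵐ x ∂μ,
      Dense ((fun γ : Γ => γ.1.1) '' (⁅stabilizer Γ x, stabilizer Γ x⁆ : Subgroup Γ)) ∧
      Dense ((fun γ : Γ => γ.1.2) '' (⁅stabilizer Γ x, stabilizer Γ x⁆ : Subgroup Γ))) :
    ∀ᵐ x ∂μ, (orbit Γ x).Finite :=
  mainA h₁ h₂ Γ hΓ μ hd

end Pool.Agent.Results.MP_60cbcc_al.DenseCommutators
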