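import Pool.Agent.Lib.MP_60cbcc_al.H8WLie
import Pool.Agent.Lib.MP_60cbcc_al.H8WDefsFW

namespace Pool.Agent.Results.MP_60cbcc_al.PropertyFW

open Pool.Agent.Lib.MP_60cbcc_al.H8W

/-- Uniform irreducible lattices in products of at least two non-compact simple real linear Lie
groups have property FW. -/
theorem result (ι : Type) [Finite ι] [Nontrivial ι] (n : ι → ℕ)
    (G : ∀ i, Subgroup (GL (Fin (n i)) ℝ)) (hG : ∀ i, IsNoncompactSimple (G i))
    (Γ : Subgroup (∀ i, G i)) (hΓ : IsUniformIrreducible Γ) : HasFW Γ := by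
  intro X _ A hA
  have := fun i => sc_sub (G i)
  have := fun i => (hG i).lc
  have := fun i => (hG i).conn
  have := hΓ.discrete
  obtain ⟨C, hC, h⟩ := hΓ.cocompact
  exact fw_pi (fun i => (hG i).nice) Γ hΓ.dense hC h hA

end Pool.Agent.Results.MP_60cbcc_al.PropertyFW
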