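import Pool.Agent.Lib.MP_60cbcc_al.H3ASMain
import Pool.Agent.Lib.MP_60cbcc_al.H3AEx

namespace Pool.Agent.Results.MP_60cbcc_al.StuckZimmer

open MeasureTheory Pool.Agent.Lib.MP_60cbcc_al.H3A

/-- Stabiliser rigidity for irreducible lattices in semisimple groups of higher rank over local
fields. -/
theorem result (ι : Type) [Fintype ι] [DecidableEq ι] (H : ι → Type) [∀ i, Group (H i)]
    [∀ i, TopologicalSpace (H i)] [∀ i, IsTopologicalGroup (H i)] [∀ i, MeasurableSpace (H i)]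
    [∀ i, BorelSpace (H i)] (J : ι → Type) [∀ i, Finite (J i)] (M : ∀ i, J i → Subgroup (H i))
    (r : ι → ℕ) (hH : ∀ i, IsPoints (H i) (M i) (r i))
    (hc : ∀ i j, ¬ IsCompact (M i j : Set (H i))) (hr : 2 ≤ ∑ i, r i)
    (Γ : Subgroup (∀ i, H i)) (hΓ : IsLattice Γ)
    (hd : ∀ i j, (Γ ⊔ (M i j).map (MonoidHom.mulSingle H i)).topologicalClosure.relIndex
      (commutator (∀ i, H i)) ≠ 0)
    (hZ : Subgroup.center Γ = ⊥)
    (X : Type) [MeasurableSpace X] [StandardBorelSpace X] [MulAction Γ X]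
    [MeasurableConstSMul Γ X] (μ : Measure X) [IsProbabilityMeasure μ] [ErgodicSMul Γ X μ] :
    (∃ F : Set X, F.Finite ∧ μ Fᶜ = 0) ∨ ∀ᵐ x ∂μ, MulAction.stabilizer Γ x = ⊥ :=
  mainS hH hc hr Γ hΓ hd hZ μ

/-- The case of almost simple groups, with dense projections. -/
theorem case_almostSimple (ι : Type) [Fintype ι] (k : ι → Type)
    [∀ i, NontriviallyNormedField (k i)] [∀ i, LocallyCompactSpace (k i)] (n : ι → ℕ)
    (G : ∀ i, Subgroup (GL (Fin (n i)) (AlgebraicClosure (k i))))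
    (hG : ∀ i, IsAlmostSimple (k i) (G i)) (hc : ∀ i, ¬ CompactSpace (points (k i) (G i)))
    (hr : 2 ≤ ∑ i, splitRank (k i) (points (k i) (G i)))
    [∀ i, MeasurableSpace (points (k i) (G i))] [∀ i, BorelSpace (points (k i) (G i))]
    (Γ : Subgroup (∀ i, points (k i) (G i))) (hΓ : IsLattice Γ)
    (hd : ∀ i, DenseRange fun (γ : Γ) (j : {j // j ≠ i}) => γ.1 j.1)
    (hZ : Subgroup.center Γ = ⊥)
    (X : Type) [MeasurableSpace X] [StandardBorelSpace X] [MulAction Γ X]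
    [MeasurableConstSMul Γ X] (μ : Measure X) [IsProbabilityMeasure μ] [ErgodicSMul Γ X μ] :
    (∃ F : Set X, F.Finite ∧ μ Fᶜ = 0) ∨ ∀ᵐ x ∂μ, MulAction.stabilizer Γ x = ⊥ := by
  refine main hG hc hr Γ hΓ (fun i => ?_) hZ μ
  refine ne_of_eq_of_ne (Subgroup.relIndex_eq_one.2 fun g _ => closure_mono ?_ (hd i g)) one_ne_zero
  rintro _ ⟨γ, rfl⟩
  exact ⟨γ.1, γ.2, rfl⟩

/-- Example: the special linear groups. -/
theorem example_sl (k : Type) [NontriviallyNormedField k] [LocallyCompactSpace k] (n : ℕ) :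
    IsPoints (Matrix.GeneralLinearGroup.det : GL (Fin (n + 2)) k →* kˣ).ker
        (fun _ : Unit => ⊤) (n + 1) ∧
      ¬ CompactSpace (Matrix.GeneralLinearGroup.det : GL (Fin (n + 2)) k →* kˣ).ker := by
  refine ⟨⟨k, inferInstance, inferInstance, n + 2, _, fun _ => _, Subgroup.subtype _,
    ⟨(sl_almostSimple k n).closed, fun _ => sl_almostSimple k n, fun _ _ h => (h rfl).elim,
      iSup_const⟩, by rw [sl_points, sl_rank], .subtypeVal, ?_, fun _ => ?_⟩, sl_noncompact k n⟩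
  · rw [sl_points, Subgroup.range_subtype]
  · rw [sl_points, ← MonoidHom.range_eq_map, Subgroup.range_subtype]

end Pool.Agent.Results.MP_60cbcc_al.StuckZimmer
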